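import Mathlib

set_option autoImplicit false

namespace Pool.Agent.Results.MP_9a7beb_co.Dumbbell

open SimpleGraph

/-- outer-connected dominating set -/
def IsOCD {W : Type} (H : SimpleGraph W) (D : Set W) : Prop :=
  (∀ v ∉ D, ∃ u ∈ D, H.Adj v u) ∧ (H.induce Dᶜ).Preconnected

/-- outer-connected domination number -/
noncomputable def ocd {W : Type} (H : SimpleGraph W) : ℕ :=
  sInf {k | ∃ D : Set W, IsOCD H D ∧ D.ncard = k}

/-- middle graph -/
def middle {V : Type} (G : SimpleGraph V) : SimpleGraph (V ⊕ G.edgeSet) :=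
  .fromRel fun x y => match x, y with
    | .inl v, .inr e => v ∈ e.1
    | .inr e, .inr f => ∃ v, v ∈ e.1 ∧ v ∈ f.1
    | _, .inl _ => False

def G : SimpleGraph (Fin 10) :=
  .fromRel fun a b => (a < 4 ∧ b < 4) ∨ (5 < a ∧ 5 < b) ∨ b.1 = a.1 + 1

instance : DecidableRel G.Adj := fun _ _ => decidable_of_iff' _ (fromRel_adj _ _ _)

instance : DecidableRel (middle G).Adj := fun x y =>
  @decidable_of_iff' _ _ (fromRel_adj _ x y) (by cases x <;> cases y <;> infer_instance)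

instance : DecidableRel G.lineGraph.Adj := fun _ _ => decidable_of_iff' _ lineGraph_adj_iff_exists

def D : Finset (Fin 10 ⊕ G.edgeSet) := {.inl 4, .inl 5, .inr ⟨s(0, 1), by decide⟩,
  .inr ⟨s(2, 3), by decide⟩, .inr ⟨s(6, 7), by decide⟩, .inr ⟨s(8, 9), by decide⟩}

def ρ : Fin 10 → ℕ := ![2, 2, 2, 1, 0, 0, 1, 2, 2, 2]

def rk : Fin 10 ⊕ G.edgeSet → ℕ
  | .inl _ => 9
  | .inr e => Sym2.lift ⟨fun a b => ρ a + ρ b, fun _ _ => add_comm _ _⟩ e.1

def mid : G.edgeSet := ⟨s(4, 5), by decide⟩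

lemma upper : ocd (middle G) ≤ 6 := by
  refine Nat.sInf_le ⟨D, ⟨by simp only [Finset.mem_coe]; decide +kernel, ?_⟩, by
    rw [Set.ncard_coe_finset]; decide +kernel⟩
  have h0 : Sum.inr mid ∉ D := by decide +kernel
  have h1 : ∀ x ∉ D, x = .inr mid ∨ ∃ y ∉ D, (middle G).Adj x y ∧ rk y < rk x := by decide +kernel
  have h2 : ∀ n (x : ((D : Set _)ᶜ : Set _)), rk x.1 < n →
      ((middle G).induce (D : Set _)ᶜ).Reachable x ⟨_, h0⟩ := fun n => by
    induction n with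
    | zero => omega
    | succ n ih =>
      rintro ⟨x, hx⟩ h
      rcases h1 x hx with rfl | ⟨y, hy, h2, h3⟩
      · rfl
      · exact (Adj.reachable (v := ⟨y, hy⟩) h2).trans (ih _ (by dsimp only at *; omega))
  exact fun x y => (h2 _ x (Nat.lt_succ_self _)).trans (h2 _ y (Nat.lt_succ_self _)).symm

def sm (e : G.edgeSet) : ℕ := Sym2.lift ⟨fun a b => a.1 + b.1, fun _ _ => add_comm _ _⟩ e.1

lemma lower (S : Set G.edgeSet) (h : IsOCD G.lineGraph S) : 7 ≤ S.ncard := by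
  have h0 : ∀ c, c = mid ∨ G.lineGraph.Adj mid c →
      ∀ e f, G.lineGraph.Adj e f → f ≠ c → sm e < sm c → sm f < sm c := by decide +kernel
  have h1 : ∀ c, c = mid ∨ G.lineGraph.Adj mid c →
      7 ≤ (Finset.univ.filter fun e => sm e < sm c ∨ e = c).card ∧
      7 ≤ (Finset.univ.filter fun e => ¬ sm e < sm c).card := by decide +kernel
  obtain ⟨c, hc, h'⟩ : ∃ c ∈ S, c = mid ∨ G.lineGraph.Adj mid c := by
    by_cases h2 : mid ∈ S
    · exact ⟨_, h2, .inl rfl⟩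
    · exact (h.1 _ h2).imp fun c hc => ⟨hc.1, .inr hc.2⟩
  have h2 := h0 c h'
  obtain ⟨h3, h4⟩ := h1 c h'
  rw [← Set.ncard_coe_finset] at h3 h4
  by_cases h5 : ∃ e ∉ S, sm e < sm c
  · obtain ⟨e, he, h5⟩ := h5
    refine h4.trans (Set.ncard_le_ncard fun f hf => by_contra fun h6 => ?_)
    have := (reachable_iff_reflTransGen _ _).1 (h.2 ⟨e, he⟩ ⟨f, h6⟩)
    refine (Finset.mem_filter.1 hf).2 (show sm (⟨f, h6⟩ : (Sᶜ : Set _)).1 < sm c from ?_)
    generalize (⟨f, h6⟩ : (Sᶜ : Set _)) = z at this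
    induction this with
    | refl => exact h5
    | @tail a b _ h7 ih => exact h2 _ _ h7 (fun h8 => b.2 (h8 ▸ hc)) ih
  · refine h3.trans (Set.ncard_le_ncard fun f hf => by_contra fun h6 => ?_)
    exact (Finset.mem_filter.1 hf).2.elim (fun h7 => h5 ⟨f, h6, h7⟩) fun h7 => h6 (h7 ▸ hc)

theorem result : ∃ G : SimpleGraph (Fin 10), G.Connected ∧ ocd (middle G) < ocd G.lineGraph := by
  refine ⟨G, by decide +kernel, upper.trans_lt ?_⟩
  obtain ⟨S, h, h1⟩ := Nat.sInf_mem (s := {k | ∃ D, IsOCD G.lineGraph D ∧ D.ncard = k})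
    ⟨_, Set.univ, ⟨by simp, fun x => absurd trivial x.2⟩, rfl⟩
  exact (lower S h).trans h1.le

end Pool.Agent.Results.MP_9a7beb_co.Dumbbell
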